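import Pool.Agent.TH168.BN.Contain

/-!
# Brill-Noether loci of small degree and loci of nets

On a curve of genus `g > (d - 1) ^ 2` every `g^r_d` (`r ≥ 1`) fails to be very ample: otherwise two
of its pencils would generate the function field, and the genus would be at most `(d - 1) ^ 2`. So
`M^r_{g,d}` lies in `M^{r-1}_{g,d-2}`, and hence in `M^2_{g,d-2r+4}`. The degree `d - 2 r + 4` is
smaller than `d - 2 r + 2 + ⌊(r + 3) / 2⌋` for all `r ≥ 3`. For `d = 2 r` the same holds for all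
`g ≥ 2 r + 1`, by Clifford's theorem.
-/

set_option autoImplicit false

open Pool.Agent.TH168.BN

namespace Pool.Agent.Results.MP_54820f_ag.LowDegree

/-- The hypotheses of Q1 for `g, r, d, e`. -/
structure Hypotheses (g r : ℕ) (d e : ℤ) : Prop where
  le_r : 3 ≤ r
  d_le : d ≤ g - 1
  e_le : e ≤ g - 1
  rho_d : rho g r d < 0
  rho_e : rho g 2 e < 0
  lt : e < d - 2 * r + 2 + ((r + 3) / 2 : ℕ)

/-- Let `r ≥ 3` and `d ≥ 2 r`. For all `g > (d - 1) ^ 2`, and if `d = 2 r` for all `g ≥ 2 r + 1`, the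
numbers `g, r, d` and `e = d - 2 r + 4` satisfy all hypotheses of Q1, the locus `M^r_{g,d}` is not
empty, and `M^r_{g,d} ⊆ M^2_{g,e}`. -/
theorem result (r d g : ℕ) (hr : 3 ≤ r) (hd : 2 * r ≤ d)
    (hg : (d - 1) ^ 2 < g ∨ (d = 2 * r ∧ 2 * r + 1 ≤ g)) :
    Hypotheses g r d (d - 2 * r + 4) ∧
    (∃ (K : Type) (_ : Field K) (_ : Algebra ℂ K), InLocus g r d K) ∧
    Contained g r d 2 (d - 2 * r + 4) := by
  have h1 : d + 1 ≤ g := by
    rcases hg with h | h
    · obtain ⟨m, rfl⟩ : ∃ m, d = m + 1 := ⟨d - 1, by omega⟩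
      rw [Nat.add_sub_cancel] at h
      nlinarith
    · omega
  have h2 : (3 : ℤ) * d < 2 * g + 6 ∨ d = 2 * r := by
    rcases hg with h | h
    · left
      obtain ⟨m, rfl⟩ : ∃ m, d = m + 1 := ⟨d - 1, by omega⟩
      rw [Nat.add_sub_cancel] at h
      have h3 : (m : ℤ) ^ 2 < g := by exact_mod_cast h
      push_cast
      nlinarith [sq_nonneg ((m : ℤ) - 1)]
    · exact Or.inr h.1
  refine ⟨⟨hr, by omega, by omega, ?_, ?_, by omega⟩, nonempty g r d (by omega) hd, ?_⟩
  · rcases h2 with h | h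
    · exact rho_neg (by omega) (by omega) h
    · subst h
      push_cast
      exact rho_neg' (by omega) (by omega)
  · rcases h2 with h | h
    · exact rho_neg le_rfl (by omega) (by omega)
    · have e1 : (d : ℤ) - 2 * r + 4 = 2 * (2 : ℕ) := by push_cast; omega
      rw [e1]
      exact rho_neg' (by omega) (by omega)
  · have h3 := contained r 2 d g (by norm_num) (by omega) hd hg
    have e1 : (d : ℤ) - 2 * r + 4 = d - 2 * (r - (2 : ℕ)) := by push_cast; ring
    rw [e1]
    exact h3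

end Pool.Agent.Results.MP_54820f_ag.LowDegree
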